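import Mathlib

/-!
A subgroup of infinite index of a free group agrees on a given finite set with a subgroup of
finite index that has a surjection onto the free group of rank two which is trivial on the given
elements.
-/

set_option autoImplicit false

universe u

namespace Pool.Agent.Y518.BM

lemma ext_perm {X : Type*} [Finite X] (s : Set X) (f : X → X) (hf : Set.InjOn f s) :
    ∃ σ : Equiv.Perm X, ∀ x ∈ s, σ x = f x := by
  classical
  let e : {x // x ∈ s} ≃ {x // x ∈ f '' s} := Equiv.Set.imageOfInjOn f s hf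
  exact ⟨e.extendSubtype, fun x hx => by rw [Equiv.extendSubtype_apply_of_mem e x hx]; rfl⟩

section Skew

variable {α : Type u} {X : Type u} {F : Type} [Group F] (σ : α → Equiv.Perm X) (c : α → X → F)

/-- The skew product permutation. -/
def sk (a : α) : Equiv.Perm (X × F) where
  toFun p := (σ a p.1, c a p.1 * p.2)
  invFun p := ((σ a).symm p.1, (c a ((σ a).symm p.1))⁻¹ * p.2)
  left_inv p := by simp
  right_inv p := by simp

/-- The action of the free group by skew products. -/
noncomputable def Phi : FreeGroup α →* Equiv.Perm (X × F) := FreeGroup.lift (sk σ c)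

/-- The action on the base. -/
noncomputable def Psi : FreeGroup α →* Equiv.Perm X := FreeGroup.lift σ

lemma Phi_of (a : α) (x : X) (k : F) :
    Phi σ c (FreeGroup.of a) (x, k) = (σ a x, c a x * k) := by
  simp [Phi, sk]

lemma Phi_inv_of (a : α) (x : X) (k : F) :
    Phi σ c (FreeGroup.of a)⁻¹ (σ a x, c a x * k) = (x, k) := by
  rw [← Phi_of σ c, ← Equiv.Perm.mul_apply, ← map_mul]
  simp

lemma Phi_skew (w : FreeGroup α) :
    ∃ d : X → F, ∀ x k, Phi σ c w (x, k) = (Psi σ w x, d x * k) := by
  induction w using FreeGroup.induction_on with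
  | C1 => exact ⟨fun _ => 1, fun x k => by simp⟩
  | of a => exact ⟨c a, fun x k => by rw [Phi_of]; simp [Psi]⟩
  | inv_of a _ =>
    refine ⟨fun x => (c a ((σ a).symm x))⁻¹, fun x k => ?_⟩
    have h := Phi_inv_of σ c a ((σ a).symm x) ((c a ((σ a).symm x))⁻¹ * k)
    rw [mul_inv_cancel_left, Equiv.apply_symm_apply] at h
    rw [h]
    simp [Psi, Equiv.Perm.inv_def]
  | mul v w hv hw =>
    obtain ⟨d, hd⟩ := hv
    obtain ⟨e, he⟩ := hw
    refine ⟨fun x => d (Psi σ w x) * e x, fun x k => ?_⟩
    rw [map_mul, Equiv.Perm.mul_apply, he, hd, map_mul, Equiv.Perm.mul_apply, mul_assoc]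

/-- The stabiliser of a point of the base. -/
noncomputable def St (x0 : X) : Subgroup (FreeGroup α) :=
  (MulAction.stabilizer (Equiv.Perm X) x0).comap (Psi σ)

lemma mem_St (x0 : X) (w : FreeGroup α) : w ∈ St σ x0 ↔ Psi σ w x0 = x0 := by
  simp [St, Subgroup.mem_comap, MulAction.mem_stabilizer_iff]

/-- The monodromy homomorphism. -/
noncomputable def mon (x0 : X) : St σ x0 →* F where
  toFun w := (Phi σ c w (x0, 1)).2
  map_one' := by simp
  map_mul' v w := by
    obtain ⟨d, hd⟩ := Phi_skew σ c (v : FreeGroup α)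
    obtain ⟨e, he⟩ := Phi_skew σ c (w : FreeGroup α)
    have hv := (mem_St σ x0 _).mp v.2
    have hw := (mem_St σ x0 _).mp w.2
    have h1 : Phi σ c ((v * w : St σ x0) : FreeGroup α) (x0, 1) = (x0, d x0 * e x0) := by
      rw [Subgroup.coe_mul, map_mul, Equiv.Perm.mul_apply, he, hd, hw, hv, mul_one]
    rw [h1, hd, he]
    simp

lemma finiteIndex_St [Finite X] (x0 : X) : (St σ x0).FiniteIndex := by
  refine ⟨?_⟩
  rw [St, Subgroup.index_comap]
  exact Subgroup.index_ne_zero_of_finite

end Skew

open Classical in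
theorem exists_cover {α : Type u} [Nontrivial α] (K : Subgroup (FreeGroup α)) (hK : K.index = 0)
    (B : Finset (FreeGroup α)) :
    ∃ (L : Subgroup (FreeGroup α)) (_ : L.FiniteIndex) (π : L →* FreeGroup Bool),
      Function.Surjective π ∧
      ∀ g ∈ B, (g ∈ K → ∃ hg : g ∈ L, π ⟨g, hg⟩ = 1) ∧ (g ∉ K → g ∉ L) := by
  -- the words
  let W : Finset (List (α × Bool)) :=
    insert [] (B.biUnion fun g => g.toWord.tails.toFinset)
  have hnil : ([] : List (α × Bool)) ∈ W := Finset.mem_insert_self _ _
  have htail : ∀ (x : α × Bool) (l : List (α × Bool)), (x :: l) ∈ W → l ∈ W := by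
    intro x l h
    rw [Finset.mem_insert] at h
    rcases h with h | h
    · exact absurd h (List.cons_ne_nil _ _)
    · rw [Finset.mem_biUnion] at h
      obtain ⟨g, hg, h⟩ := h
      rw [List.mem_toFinset, List.mem_tails] at h
      refine Finset.mem_insert_of_mem (Finset.mem_biUnion.mpr ⟨g, hg, ?_⟩)
      rw [List.mem_toFinset, List.mem_tails]
      exact (List.suffix_cons x l).trans h
  have hword : ∀ g ∈ B, g.toWord ∈ W := by
    intro g hg
    refine Finset.mem_insert_of_mem (Finset.mem_biUnion.mpr ⟨g, hg, ?_⟩)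
    rw [List.mem_toFinset, List.mem_tails]
  -- the vertices
  let cs : List (α × Bool) → FreeGroup α ⧸ K := fun l => (FreeGroup.mk l : FreeGroup α ⧸ K)
  let V : Set (FreeGroup α ⧸ K) := cs '' (W : Set (List (α × Bool)))
  have hVfin : V.Finite := W.finite_toSet.image _
  haveI : Finite V := hVfin
  have hcs : ∀ l ∈ W, cs l ∈ V := fun l hl => ⟨l, hl, rfl⟩
  -- an edge leaving the set of vertices
  obtain ⟨a0, v0, hv0⟩ : ∃ (a : α) (v : V), (FreeGroup.of a) • (v : FreeGroup α ⧸ K) ∉ V := by
    by_contra hcon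
    push Not at hcon
    have hbij : ∀ a : α, ∀ q ∈ V, (FreeGroup.of a)⁻¹ • q ∈ V := by
      intro a q hq
      let f : V → V := fun v => ⟨(FreeGroup.of a) • (v : FreeGroup α ⧸ K), hcon a v⟩
      have hf : Function.Injective f := by
        intro x y hxy
        have := congrArg Subtype.val hxy
        exact Subtype.ext (smul_left_cancel _ this)
      obtain ⟨v, hv⟩ := (Finite.injective_iff_surjective.mp hf) ⟨q, hq⟩
      have h2 : (FreeGroup.of a) • (v : FreeGroup α ⧸ K) = q := congrArg Subtype.val hv
      rw [← h2, inv_smul_smul]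
      exact v.2
    have hall : ∀ w : FreeGroup α, ∀ q ∈ V, w • q ∈ V := by
      intro w
      induction w using FreeGroup.induction_on with
      | C1 => intro q hq; simpa using hq
      | of a => intro q hq; exact hcon a ⟨q, hq⟩
      | inv_of a _ => exact hbij a
      | mul x y hx hy => intro q hq; rw [mul_smul]; exact hx _ (hy _ hq)
    have hfin : Finite (FreeGroup α ⧸ K) := by
      refine Set.finite_univ_iff.mp (hVfin.subset ?_)
      intro q _
      obtain ⟨w, rfl⟩ := QuotientGroup.mk_surjective q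
      have h1 := hall w _ (hcs [] hnil)
      have h2 : w • cs [] = (w : FreeGroup α ⧸ K) := by
        change w • ((FreeGroup.mk [] : FreeGroup α) : FreeGroup α ⧸ K) = _
        rw [← FreeGroup.one_eq_mk]
        rw [MulAction.Quotient.smul_coe, smul_eq_mul, mul_one]
      rwa [h2] at h1
    have h3 : K.FiniteIndex := Subgroup.finiteIndex_of_finite_quotient
    exact h3.index_ne_zero hK
  obtain ⟨b0, hb0⟩ := exists_ne a0
  -- the partial permutations
  let f : α → Option V → Option V := fun a x =>
    x.elim none (fun v => if h : (FreeGroup.of a) • (v : FreeGroup α ⧸ K) ∈ V then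
      some ⟨_, h⟩ else none)
  have hf1 : ∀ a (v : V) (h : (FreeGroup.of a) • (v : FreeGroup α ⧸ K) ∈ V),
      f a (some v) = some ⟨_, h⟩ := by
    intro a v h
    simp only [f, Option.elim_some, dif_pos h]
  have hf2 : f a0 (some v0) = none := by
    simp only [f, Option.elim_some, dif_neg hv0]
  have hσ : ∀ a, ∃ σ : Equiv.Perm (Option V),
      (∀ (v : V) (h : (FreeGroup.of a) • (v : FreeGroup α ⧸ K) ∈ V), σ (some v) = some ⟨_, h⟩) ∧
      (a ≠ a0 → σ none = none) ∧ (a = a0 → σ (some v0) = none) := by
    intro a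
    by_cases ha : a = a0
    · subst ha
      let s : Set (Option V) := {x | x = some v0 ∨ ∃ v : V, x = some v ∧
        (FreeGroup.of a) • (v : FreeGroup α ⧸ K) ∈ V}
      have hinj : Set.InjOn (f a) s := by
        rintro x (rfl | ⟨v, rfl, hv⟩) y (rfl | ⟨w, rfl, hw⟩) hxy
        · rfl
        · rw [hf2, hf1 a w hw] at hxy
          exact absurd hxy.symm (Option.some_ne_none _)
        · rw [hf2, hf1 a v hv] at hxy
          exact absurd hxy (Option.some_ne_none _)
        · rw [hf1 a v hv, hf1 a w hw] at hxy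
          have := congrArg Subtype.val (Option.some_injective _ hxy)
          rw [Subtype.ext (smul_left_cancel _ this)]
      obtain ⟨σ, hσ⟩ := ext_perm s (f a) hinj
      refine ⟨σ, fun v h => ?_, fun h => absurd rfl h, fun _ => ?_⟩
      · rw [hσ (some v) (Or.inr ⟨v, rfl, h⟩), hf1 a v h]
      · rw [hσ (some v0) (Or.inl rfl), hf2]
    · let s : Set (Option V) := {x | x = none ∨ ∃ v : V, x = some v ∧
        (FreeGroup.of a) • (v : FreeGroup α ⧸ K) ∈ V}
      have hf3 : f a none = none := rfl
      have hinj : Set.InjOn (f a) s := by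
        rintro x (rfl | ⟨v, rfl, hv⟩) y (rfl | ⟨w, rfl, hw⟩) hxy
        · rfl
        · rw [hf3, hf1 a w hw] at hxy
          exact absurd hxy.symm (Option.some_ne_none _)
        · rw [hf3, hf1 a v hv] at hxy
          exact absurd hxy (Option.some_ne_none _)
        · rw [hf1 a v hv, hf1 a w hw] at hxy
          have := congrArg Subtype.val (Option.some_injective _ hxy)
          rw [Subtype.ext (smul_left_cancel _ this)]
      obtain ⟨σ, hσ⟩ := ext_perm s (f a) hinj
      refine ⟨σ, fun v h => ?_, fun _ => ?_, fun h => absurd h ha⟩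
      · rw [hσ (some v) (Or.inr ⟨v, rfl, h⟩), hf1 a v h]
      · rw [hσ none (Or.inl rfl), hf3]
  choose σ hσ1 hσ2 hσ3 using hσ
  let c : α → Option V → FreeGroup Bool := fun a x =>
    if x = none then (if a = a0 then FreeGroup.of true else if a = b0 then FreeGroup.of false
      else 1) else 1
  have hc1 : ∀ a (v : V), c a (some v) = 1 := by
    intro a v
    simp only [c, if_neg (Option.some_ne_none v)]
  have hc2 : c a0 none = FreeGroup.of true := by simp [c]
  have hc3 : c b0 none = FreeGroup.of false := by simp [c, hb0]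
  let x0 : Option V := some ⟨cs [], hcs [] hnil⟩
  -- walks inside the set of vertices
  have hwalk : ∀ (l : List (α × Bool)) (hl : l ∈ W) (k : FreeGroup Bool),
      Phi σ c (FreeGroup.mk l) (x0, k) = (some ⟨cs l, hcs l hl⟩, k) := by
    intro l
    induction l with
    | nil =>
      intro hl k
      rw [← FreeGroup.one_eq_mk]
      simp [x0]
    | cons x l ih =>
      intro hl k
      have hl' := htail x l hl
      obtain ⟨a, ε⟩ := x
      have hmk : (FreeGroup.mk ((a, ε) :: l) : FreeGroup α) =
          FreeGroup.mk [(a, ε)] * FreeGroup.mk l := by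
        rw [FreeGroup.mul_mk]; rfl
      have hcs' : cs ((a, ε) :: l) = (FreeGroup.mk [(a, ε)] : FreeGroup α) • cs l := by
        change ((FreeGroup.mk ((a, ε) :: l) : FreeGroup α) : FreeGroup α ⧸ K) = _
        rw [hmk]
        rfl
      rw [hmk, map_mul, Equiv.Perm.mul_apply, ih hl']
      cases ε with
      | true =>
        have h1 : (FreeGroup.mk [(a, true)] : FreeGroup α) = FreeGroup.of a := rfl
        have h2 : (FreeGroup.of a) • cs l ∈ V := by
          rw [← h1, ← hcs']; exact hcs _ hl
        rw [h1, Phi_of, hσ1 a ⟨cs l, hcs l hl'⟩ h2, hc1, one_mul]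
        congr 2
      | false =>
        have h1 : (FreeGroup.mk [(a, false)] : FreeGroup α) = (FreeGroup.of a)⁻¹ := by
          simp [FreeGroup.of, FreeGroup.inv_mk, FreeGroup.invRev]
        have h2 : (FreeGroup.of a) • cs ((a, false) :: l) = cs l := by
          rw [hcs', h1, smul_inv_smul]
        have h3 : (FreeGroup.of a) • cs ((a, false) :: l) ∈ V := by
          rw [h2]; exact hcs _ hl'
        have h4 := Phi_inv_of σ c a (some ⟨cs ((a, false) :: l), hcs _ hl⟩) k
        rw [hσ1 a ⟨cs ((a, false) :: l), hcs _ hl⟩ h3, hc1, one_mul] at h4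
        rw [h1]
        convert h4 using 4
        exact Subtype.ext h2.symm
  have hB : ∀ g (hg : g ∈ B) k, Phi σ c g (x0, k) =
      (some ⟨cs g.toWord, hcs _ (hword g hg)⟩, k) := by
    intro g hg k
    have h1 := hwalk g.toWord (hword g hg) k
    rwa [FreeGroup.mk_toWord] at h1
  have hfst : ∀ g z, Phi σ c g (x0, 1) = z → Psi σ g x0 = z.1 := by
    intro g z h
    obtain ⟨d, hd⟩ := Phi_skew σ c g
    rw [hd] at h
    rw [← h]
  have hrange : ∀ g z, Phi σ c g (x0, 1) = (x0, z) → z ∈ (mon σ c x0).range := by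
    intro g z h
    have h1 : g ∈ St σ x0 := (mem_St σ x0 g).mpr (hfst g _ h)
    exact ⟨⟨g, h1⟩, congrArg Prod.snd h⟩
  refine ⟨St σ x0, finiteIndex_St σ x0, mon σ c x0, ?_, ?_⟩
  · obtain ⟨l0, hl0, hl0'⟩ := v0.2
    have hw : ∀ k, Phi σ c (FreeGroup.of a0 * FreeGroup.mk l0) (x0, k) = (none, k) := by
      intro k
      rw [map_mul, Equiv.Perm.mul_apply, hwalk l0 hl0]
      have h1 : (⟨cs l0, hcs l0 hl0⟩ : V) = v0 := Subtype.ext hl0'
      rw [h1, Phi_of, hσ3 a0 rfl, hc1, one_mul]
    have hinv : ∀ (g : FreeGroup α) (y : Option V), (∀ k, Phi σ c g (x0, k) = (y, k)) →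
        ∀ k, Phi σ c g⁻¹ (y, k) = (x0, k) := by
      intro g y h k
      rw [← h k, ← Equiv.Perm.mul_apply, ← map_mul, inv_mul_cancel, map_one,
        Equiv.Perm.one_apply]
    have h1 : FreeGroup.of false ∈ (mon σ c x0).range := by
      refine hrange ((FreeGroup.of a0 * FreeGroup.mk l0)⁻¹ * (FreeGroup.of b0 *
        (FreeGroup.of a0 * FreeGroup.mk l0))) _ ?_
      rw [map_mul, Equiv.Perm.mul_apply, map_mul, Equiv.Perm.mul_apply, hw, Phi_of,
        hσ2 b0 hb0, hc3, mul_one, hinv _ _ hw]
    have h2 : FreeGroup.of true ∈ (mon σ c x0).range := by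
      have hne : σ a0 none ≠ none := by
        intro h
        have := (σ a0).injective (h.trans (hσ3 a0 rfl).symm)
        exact Option.some_ne_none _ this.symm
      obtain ⟨u, hu⟩ := Option.ne_none_iff_exists'.mp hne
      obtain ⟨lu, hlu, hlu'⟩ := u.2
      have hwu : ∀ k, Phi σ c (FreeGroup.mk lu) (x0, k) = (some u, k) := by
        intro k
        rw [hwalk lu hlu]
        have h1 : (⟨cs lu, hcs lu hlu⟩ : V) = u := Subtype.ext hlu'
        rw [h1]
      refine hrange ((FreeGroup.mk lu)⁻¹ * (FreeGroup.of a0 *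
        (FreeGroup.of a0 * FreeGroup.mk l0))) _ ?_
      rw [map_mul, Equiv.Perm.mul_apply, map_mul, Equiv.Perm.mul_apply, hw, Phi_of,
        hu, hc2, mul_one, hinv _ _ hwu]
    have hall : ∀ z : FreeGroup Bool, z ∈ (mon σ c x0).range := by
      intro z
      induction z using FreeGroup.induction_on with
      | C1 => exact Subgroup.one_mem _
      | of b => cases b <;> assumption
      | inv_of b h => exact Subgroup.inv_mem _ h
      | mul x y hx hy => exact Subgroup.mul_mem _ hx hy
    exact fun z => hall z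
  · intro g hg
    have h0 := hB g hg 1
    have hcsg : cs g.toWord = (g : FreeGroup α ⧸ K) := by
      change ((FreeGroup.mk g.toWord : FreeGroup α) : FreeGroup α ⧸ K) = _
      rw [FreeGroup.mk_toWord]
    have hcs1 : cs [] = ((1 : FreeGroup α) : FreeGroup α ⧸ K) := by
      change ((FreeGroup.mk [] : FreeGroup α) : FreeGroup α ⧸ K) = _
      rw [← FreeGroup.one_eq_mk]
    constructor
    · intro hgK
      have h1 : (⟨cs g.toWord, hcs _ (hword g hg)⟩ : V) = ⟨cs [], hcs [] hnil⟩ := by
        apply Subtype.ext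
        change cs g.toWord = cs []
        rw [hcsg, hcs1, eq_comm, QuotientGroup.eq]
        simpa using hgK
      rw [h1] at h0
      have h2 : g ∈ St σ x0 := (mem_St σ x0 g).mpr (hfst g _ h0)
      exact ⟨h2, congrArg Prod.snd h0⟩
    · intro hgK hgS
      apply hgK
      have h1 := (mem_St σ x0 g).mp hgS
      rw [hfst g _ h0] at h1
      have h2 : cs g.toWord = cs [] := congrArg Subtype.val (Option.some_injective _ h1)
      rw [hcsg, hcs1, eq_comm, QuotientGroup.eq] at h2
      simpa using h2

end Pool.Agent.Y518.BM
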