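import Pool.Agent.Y518.BM.Lift
import Pool.Agent.Y518.BM.Cover
import Pool.Agent.Results.MP_d9b86d_al.BoomerangNoIRS

/-!
The closure of the set of infinite boomerang subgroups whose orbit closures support no invariant
random subgroup.
-/

set_option autoImplicit false

universe u v

namespace Pool.Agent.Y518.BM

open Filter MeasureTheory Topology Pool.Agent.H338R3

/-- The infinite boomerang subgroups whose orbit closure supports no invariant random subgroup. -/
def NB (G : Type u) [Group G] : Set (Subgroup G) :=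
  {Δ | Infinite Δ ∧ IsBoomerang Δ ∧
    ¬ ∃ μ : Measure (Subgroup G), IsIRS μ ∧ μ (orbitClosure Δ) = 1}

variable {G : Type u} [Group G]

lemma lift_mem_NB {H : Type v} [Group H] {L : Subgroup G} [L.FiniteIndex] {π : L →* H}
    (hπ : Function.Surjective π) {D : Subgroup H} (hD : D ∈ NB H) : lift L π D ∈ NB G :=
  ⟨infinite_lift hπ hD.1, boomerang_lift hD.2.1, no_irs_lift hπ hD.2.2⟩

lemma NB_freeGroup (α : Type u) [Countable α] [Nontrivial α] : (NB (FreeGroup α)).Nonempty :=
  Pool.Agent.Results.MP_d9b86d_al.BoomerangNoIRS.result α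

theorem exists_near {α : Type u} [Nontrivial α] (K : Subgroup (FreeGroup α)) (hK : K.index = 0)
    (B : Finset (FreeGroup α)) : ∃ Δ ∈ NB (FreeGroup α), ∀ g ∈ B, (g ∈ Δ ↔ g ∈ K) := by
  obtain ⟨L, hL, π, hπ, hB⟩ := exists_cover K hK B
  obtain ⟨D, hD⟩ := NB_freeGroup Bool
  refine ⟨lift L π D, lift_mem_NB hπ hD, fun g hg => ?_⟩
  obtain ⟨h1, h2⟩ := hB g hg
  rw [mem_lift]
  constructor
  · rintro ⟨h3, -⟩
    by_contra h4
    exact h2 h4 h3
  · intro h3
    obtain ⟨h4, h5⟩ := h1 h3
    exact ⟨h4, by rw [h5]; exact D.one_mem⟩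

lemma mem_closure_of_near {S : Set (Subgroup G)} {K : Subgroup G}
    (h : ∀ B : Finset G, ∃ Δ ∈ S, ∀ g ∈ B, (g ∈ Δ ↔ g ∈ K)) : K ∈ closure S := by
  classical
  choose f hfS hf using h
  refine mem_closure_of_tendsto (f := f) (b := atTop) (tendsto_sub' fun x => ?_)
    (Eventually.of_forall hfS)
  filter_upwards [eventually_ge_atTop ({x} : Finset G)] with B hB
  exact hf B x (hB (Finset.mem_singleton_self x))

/-- A subgroup of finite index supports an invariant random subgroup. -/
lemma finiteIndex_irs (K : Subgroup G) [K.FiniteIndex] :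
    ∃ μ : Measure (Subgroup G), IsIRS μ ∧ μ (orbitClosure K) = 1 := by
  classical
  haveI : Fintype (G ⧸ K) := Fintype.ofFinite _
  let f : G ⧸ K → Subgroup G := fun q => cj q.out K
  have hf : ∀ g : G, f (g : G ⧸ K) = cj g K := by
    intro g
    obtain ⟨x, hx⟩ := QuotientGroup.mk_out_eq_mul K g
    change cj (g : G ⧸ K).out K = cj g K
    rw [hx, cj_mul]
    congr 1
    ext y
    rw [mem_cj]
    constructor
    · intro h
      have := K.mul_mem (K.mul_mem x.2 h) (K.inv_mem x.2)
      simpa [mul_assoc] using this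
    · intro h
      exact K.mul_mem (K.mul_mem (K.inv_mem x.2) h) x.2
  have hf2 : ∀ (g : G) (q : G ⧸ K), f (g • q) = cj g (f q) := by
    intro g q
    obtain ⟨x, rfl⟩ := QuotientGroup.mk_surjective q
    have h1 : g • (x : G ⧸ K) = ((g * x : G) : G ⧸ K) := rfl
    rw [h1, hf, hf, cj_mul]
  have hcard0 : (Fintype.card (G ⧸ K) : ENNReal) ≠ 0 := by
    have : Nonempty (G ⧸ K) := ⟨((1 : G) : G ⧸ K)⟩
    exact_mod_cast Fintype.card_ne_zero
  have hcardt : (Fintype.card (G ⧸ K) : ENNReal) ≠ ⊤ := ENNReal.natCast_ne_top _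
  let μ : Measure (Subgroup G) :=
    (Fintype.card (G ⧸ K) : ENNReal)⁻¹ • ∑ q : G ⧸ K, Measure.dirac (f q)
  have hμ : ∀ s, MeasurableSet s → μ s =
      (Fintype.card (G ⧸ K) : ENNReal)⁻¹ * ∑ q : G ⧸ K, s.indicator 1 (f q) := by
    intro s hs
    simp only [μ, Measure.smul_apply, Measure.finsetSum_apply, smul_eq_mul]
    congr 1
    exact Finset.sum_congr rfl fun q _ => Measure.dirac_apply' _ hs
  refine ⟨μ, ⟨⟨?_⟩, ?_⟩, ?_⟩
  · rw [hμ _ MeasurableSet.univ]
    simp [ENNReal.inv_mul_cancel hcard0 hcardt]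
  · intro g
    ext s hs
    rw [Measure.map_apply (continuous_cj g).measurable hs, hμ s hs,
      hμ _ ((continuous_cj g).measurable hs)]
    congr 1
    rw [← Equiv.sum_comp (MulAction.toPerm g) (fun q => s.indicator 1 (f q))]
    refine Finset.sum_congr rfl fun q _ => ?_
    rw [MulAction.toPerm_apply, hf2]
    rfl
  · rw [hμ (orbitClosure K) isClosed_closure.measurableSet]
    have h1 : ∀ q : G ⧸ K, (orbitClosure K).indicator (1 : Subgroup G → ENNReal) (f q) = 1 := by
      intro q
      rw [Set.indicator_of_mem]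
      · rfl
      · exact subset_closure ⟨q.out, rfl⟩
    rw [Finset.sum_congr rfl fun q _ => h1 q]
    simp [ENNReal.inv_mul_cancel hcard0 hcardt]

lemma index_eq_zero_of_mem_NB {K : Subgroup G} (hK : K ∈ NB G) : K.index = 0 := by
  by_contra h
  haveI : K.FiniteIndex := ⟨h⟩
  exact hK.2.2 (finiteIndex_irs K)

/-- In a finitely generated group the set of the subgroups of infinite index is closed. -/
lemma isClosed_index_zero [Group.FG G] : IsClosed {K : Subgroup G | K.index = 0} := by
  classical
  rw [← isOpen_compl_iff, isOpen_iff_forall_mem_open]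
  intro K hK
  haveI : K.FiniteIndex := ⟨hK⟩
  haveI : Fintype (G ⧸ K) := Fintype.ofFinite _
  have hfg : Group.FG K := Subgroup.fg_of_index_ne_zero K
  obtain ⟨S, hS⟩ := (Group.fg_iff_subgroup_fg K).mp hfg
  refine ⟨(⋂ s : S, {K' : Subgroup G | (s : G) ∈ K'}) ∩
    ⋂ q : G ⧸ K, {K' : Subgroup G | q.out ∉ K → q.out ∉ K'}, ?_, ?_, ?_⟩
  · rintro K' ⟨h1, h2⟩
    rw [Set.mem_iInter] at h1 h2
    have hle : K ≤ K' := by
      rw [← hS, Subgroup.closure_le]
      intro s hs
      exact h1 ⟨s, hs⟩
    have hge : K' ≤ K := by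
      intro g hg
      obtain ⟨x, hx⟩ := QuotientGroup.mk_out_eq_mul K g
      have h3 : (g : G ⧸ K).out ∈ K' := by
        rw [hx]; exact K'.mul_mem hg (hle x.2)
      have h4 : (g : G ⧸ K).out ∈ K := by
        by_contra h5
        exact h2 _ h5 h3
      rw [hx] at h4
      have := K.mul_mem h4 (K.inv_mem x.2)
      simpa using this
    rw [le_antisymm hge hle]
    exact hK
  · refine IsOpen.inter (isOpen_iInter_of_finite fun s => (isClopen_mem _).isOpen)
      (isOpen_iInter_of_finite fun q => ?_)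
    by_cases hq : q.out ∈ K
    · simp [hq]
    · simp only [hq, not_false_eq_true, forall_const]
      exact (isClopen_mem _).compl.isOpen
  · refine ⟨Set.mem_iInter.mpr fun s => ?_, Set.mem_iInter.mpr fun q h => h⟩
    change (s : G) ∈ K
    rw [← hS]
    exact Subgroup.subset_closure s.2

/-- In a free group of infinite rank every finite set of elements generates a subgroup of infinite
index. -/
lemma index_closure {α : Type u} [Infinite α] (B : Set (FreeGroup α)) (hB : B.Finite) :
    (Subgroup.closure B).index = 0 := by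
  classical
  -- a letter that does not occur
  let T : Set α := ⋃ g ∈ B, {a | ∃ ε, (a, ε) ∈ g.toWord}
  have hT : T.Finite := by
    refine hB.biUnion fun g _ => ?_
    refine (g.toWord.toFinset.image Prod.fst).finite_toSet.subset ?_
    rintro a ⟨ε, h⟩
    simp only [Finset.coe_image, Set.mem_image, Finset.mem_coe, List.mem_toFinset]
    exact ⟨(a, ε), h, rfl⟩
  obtain ⟨t, ht⟩ := hT.exists_notMem
  let φ : FreeGroup α →* Multiplicative ℤ :=
    FreeGroup.lift fun a => if a = t then Multiplicative.ofAdd 1 else 1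
  have hφ : ∀ g ∈ B, φ g = 1 := by
    intro g hg
    have h1 : ∀ l : List (α × Bool), (∀ x ∈ l, x.1 ≠ t) → φ (FreeGroup.mk l) = 1 := by
      intro l
      induction l with
      | nil => intro _; rw [← FreeGroup.one_eq_mk, map_one]
      | cons x l ih =>
        intro h
        have hx : φ (FreeGroup.mk [x]) = 1 := by
          obtain ⟨a, ε⟩ := x
          have ha : a ≠ t := h (a, ε) List.mem_cons_self
          cases ε <;> simp [φ, FreeGroup.lift_mk, ha]
        have hmk : (FreeGroup.mk (x :: l) : FreeGroup α) =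
            FreeGroup.mk [x] * FreeGroup.mk l := by
          rw [FreeGroup.mul_mk]; rfl
        rw [hmk, map_mul, hx, ih fun y hy => h y (List.mem_cons_of_mem _ hy), mul_one]
    rw [← FreeGroup.mk_toWord (x := g)]
    refine h1 _ fun x hx hxt => ht ?_
    refine Set.mem_biUnion hg ⟨x.2, ?_⟩
    rw [← hxt]
    exact hx
  have hle : Subgroup.closure B ≤ φ.ker := by
    rw [Subgroup.closure_le]
    intro g hg
    exact hφ g hg
  have hsurj : Function.Surjective φ := by
    intro z
    refine ⟨FreeGroup.of t ^ (Multiplicative.toAdd z), ?_⟩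
    rw [map_zpow]
    simp only [φ, FreeGroup.lift_apply_of, if_true]
    rw [← ofAdd_zsmul]
    simp
  have hker : φ.ker.index = 0 := by
    rw [Subgroup.index_ker, MonoidHom.range_eq_top.mpr hsurj]
    rw [Nat.card_eq_zero]
    right
    infer_instance
  have := Subgroup.index_dvd_of_le hle
  rw [hker] at this
  exact Nat.eq_zero_of_zero_dvd this

end Pool.Agent.Y518.BM
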