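import Pool.Agent.H338R3.SubTop

/-!
Boomerang subgroups without invariant random subgroups on their orbit closures lift along
surjections from subgroups of finite index.
-/

set_option autoImplicit false

universe u v

namespace Pool.Agent.Y518.BM

open Filter MeasureTheory Topology Pool.Agent.H338R3

variable {G : Type u} [Group G] {H : Type v} [Group H]

lemma cj_mul (g h : G) (K : Subgroup G) : cj (g * h) K = cj g (cj h K) := by
  ext x; simp [mem_cj, mul_assoc]

lemma cj_one (K : Subgroup G) : cj 1 K = K := by ext x; simp [mem_cj]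

lemma tendsto_sub' {ι : Type*} {l : Filter ι} {f : ι → Subgroup G} {K : Subgroup G}
    (h : ∀ x : G, ∀ᶠ k in l, (x ∈ f k ↔ x ∈ K)) : Tendsto f l (𝓝 K) := by
  classical
  rw [nhds_induced, tendsto_comap_iff, tendsto_pi_nhds]
  intro x
  rw [nhds_discrete, tendsto_pure]
  filter_upwards [h x] with k hk
  simp [hk]

lemma eventually_mem {ι : Type*} {l : Filter ι} {f : ι → Subgroup G} {K : Subgroup G}
    (h : Tendsto f l (𝓝 K)) (x : G) : ∀ᶠ k in l, (x ∈ f k ↔ x ∈ K) := by
  by_cases hx : x ∈ K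
  · have := h.eventually ((isClopen_mem x).isOpen.mem_nhds hx)
    filter_upwards [this] with k hk
    exact iff_of_true hk hx
  · have := h.eventually ((isClopen_mem x).compl.isOpen.mem_nhds hx)
    filter_upwards [this] with k hk
    exact iff_of_false hk hx

/-- The preimage of a subgroup `D` of `H` under a homomorphism `π` defined on a subgroup `L`
of `G`, as a subgroup of `G`. -/
def lift (L : Subgroup G) (π : L →* H) (D : Subgroup H) : Subgroup G :=
  (D.comap π).map L.subtype

lemma mem_lift {L : Subgroup G} {π : L →* H} {D : Subgroup H} {x : G} :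
    x ∈ lift L π D ↔ ∃ hx : x ∈ L, π ⟨x, hx⟩ ∈ D := by
  rw [lift, Subgroup.mem_map]
  constructor
  · rintro ⟨y, hy, rfl⟩
    exact ⟨y.2, hy⟩
  · rintro ⟨hx, h⟩
    exact ⟨⟨x, hx⟩, h, rfl⟩

/-- The image of `K ∩ L` under `π`. -/
def proj (L : Subgroup G) (π : L →* H) (K : Subgroup G) : Subgroup H := (K.subgroupOf L).map π

lemma mem_proj {L : Subgroup G} {π : L →* H} {K : Subgroup G} {h : H} :
    h ∈ proj L π K ↔ ∃ x : L, (x : G) ∈ K ∧ π x = h := by
  rw [proj, Subgroup.mem_map]
  rfl

lemma proj_lift {L : Subgroup G} {π : L →* H} (hπ : Function.Surjective π) (D : Subgroup H) :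
    proj L π (lift L π D) = D := by
  ext h
  rw [mem_proj]
  constructor
  · rintro ⟨x, hx, rfl⟩
    obtain ⟨_, h2⟩ := mem_lift.mp hx
    exact h2
  · intro hh
    obtain ⟨x, rfl⟩ := hπ h
    exact ⟨x, mem_lift.mpr ⟨x.2, hh⟩, rfl⟩

lemma proj_cj {L : Subgroup G} {π : L →* H} (x : L) (K : Subgroup G) :
    proj L π (cj (x : G) K) = cj (π x) (proj L π K) := by
  ext h
  rw [mem_proj, mem_cj, mem_proj]
  constructor
  · rintro ⟨y, hy, rfl⟩
    refine ⟨x⁻¹ * y * x, ?_, by simp⟩
    have := (mem_cj _ _ _).mp hy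
    simpa using this
  · rintro ⟨y, hy, h2⟩
    refine ⟨x * y * x⁻¹, ?_, ?_⟩
    · rw [mem_cj]
      simpa [mul_assoc] using hy
    · rw [map_mul, map_mul, h2, map_inv]
      group

/-- The subgroups containing the kernel of `π`. -/
def Fk (L : Subgroup G) (π : L →* H) : Set (Subgroup G) :=
  {K | ∀ x : L, π x = 1 → (x : G) ∈ K}

lemma isClosed_Fk (L : Subgroup G) (π : L →* H) : IsClosed (Fk L π) := by
  have : Fk L π = ⋂ x : {x : L // π x = 1}, {K : Subgroup G | ((x : L) : G) ∈ K} := by
    ext K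
    simp [Fk]
  rw [this]
  exact isClosed_iInter fun x => (isClopen_mem _).isClosed

lemma continuousOn_proj {L : Subgroup G} {π : L →* H} (hπ : Function.Surjective π) :
    ContinuousOn (proj L π) (Fk L π) := by
  classical
  choose s hs using hπ
  rw [continuousOn_iff_continuous_restrict]
  refine continuous_induced_rng.mpr ?_
  refine continuous_pi fun h => ?_
  have h1 : Continuous fun K : Fk L π => (decide (((s h : L) : G) ∈ (K : Subgroup G)) : Bool) :=
    (continuous_ind ((s h : L) : G)).comp continuous_subtype_val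
  refine h1.congr fun K => ?_
  have : ((s h : L) : G) ∈ (K : Subgroup G) ↔ h ∈ proj L π K := by
    rw [mem_proj]
    constructor
    · intro h2
      exact ⟨s h, h2, hs h⟩
    · rintro ⟨x, hx, hxh⟩
      have h3 := K.2 (s h * x⁻¹) (by rw [map_mul, map_inv, hs, hxh, mul_inv_cancel])
      have h4 := (K : Subgroup G).mul_mem h3 hx
      simpa using h4
  simp [this, Set.restrict]

lemma infinite_lift {L : Subgroup G} {π : L →* H} (hπ : Function.Surjective π) {D : Subgroup H}
    (hD : Infinite D) : Infinite (lift L π D) := by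
  refine Infinite.of_surjective
    (fun x : lift L π D => (⟨π ⟨x.1, (mem_lift.mp x.2).1⟩, (mem_lift.mp x.2).2⟩ : D)) ?_
  rintro ⟨d, hd⟩
  obtain ⟨x, rfl⟩ := hπ d
  exact ⟨⟨x, mem_lift.mpr ⟨x.2, hd⟩⟩, rfl⟩

lemma boomerang_lift {L : Subgroup G} [L.FiniteIndex] {π : L →* H} {D : Subgroup H}
    (hD : IsBoomerang D) : IsBoomerang (lift L π D) := by
  intro g
  obtain ⟨m, hm, -, hg⟩ := L.exists_pow_mem_of_index_ne_zero Subgroup.FiniteIndex.index_ne_zero g
  obtain ⟨n, hn, hlim⟩ := hD (π ⟨g ^ m, hg⟩)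
  refine ⟨fun k => m * n k, ?_, ?_⟩
  · exact tendsto_atTop_mono (fun k => Nat.le_mul_of_pos_left _ hm) hn
  · apply tendsto_sub
    intro x
    have hpow : ∀ k, g ^ (m * n k) ∈ L := fun k => by
      rw [pow_mul]; exact L.pow_mem hg _
    by_cases hx : x ∈ L
    · filter_upwards [eventually_mem hlim (π ⟨x, hx⟩)] with k hk
      rw [mem_cj] at hk ⊢
      rw [mem_lift, mem_lift]
      constructor
      · rintro ⟨h1, h2⟩
        refine ⟨hx, hk.mp ?_⟩
        rw [← map_pow, ← map_inv, ← map_mul, ← map_mul]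
        convert h2 using 2
        apply Subtype.ext
        simp [pow_mul]
      · rintro ⟨_, h2⟩
        refine ⟨L.mul_mem (L.mul_mem (L.inv_mem (hpow k)) hx) (hpow k), ?_⟩
        have h3 := hk.mpr h2
        rw [← map_pow, ← map_inv, ← map_mul, ← map_mul] at h3
        convert h3 using 2
        apply Subtype.ext
        simp [pow_mul]
    · refine Eventually.of_forall fun k => ?_
      rw [mem_cj, mem_lift, mem_lift]
      refine iff_of_false ?_ ?_
      · rintro ⟨h1, -⟩
        apply hx
        have h2 := L.mul_mem (L.mul_mem (hpow k) h1) (L.inv_mem (hpow k))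
        simpa [mul_assoc] using h2
      · rintro ⟨h1, -⟩
        exact hx h1

theorem no_irs_lift {L : Subgroup G} [L.FiniteIndex] {π : L →* H} (hπ : Function.Surjective π)
    {D : Subgroup H}
    (hD : ¬ ∃ μ : Measure (Subgroup H), IsIRS μ ∧ μ (orbitClosure D) = 1) :
    ¬ ∃ μ : Measure (Subgroup G), IsIRS μ ∧ μ (orbitClosure (lift L π D)) = 1 := by
  classical
  rintro ⟨μ, ⟨hprob, hinv⟩, hμ⟩
  set Δ := lift L π D with hΔ
  set C : Set (Subgroup G) := closure (Set.range fun x : L => cj (x : G) Δ) with hC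
  have hCc : IsClosed C := isClosed_closure
  have hCm : MeasurableSet C := hCc.measurableSet
  have hCF : C ⊆ Fk L π := by
    refine closure_minimal ?_ (isClosed_Fk L π)
    rintro _ ⟨x, rfl⟩ y hy
    rw [mem_cj, hΔ, mem_lift]
    refine ⟨L.mul_mem (L.mul_mem (L.inv_mem x.2) y.2) x.2, ?_⟩
    have : π (x⁻¹ * y * x) = 1 := by simp [hy]
    have h2 : (⟨(x : G)⁻¹ * y * x, L.mul_mem (L.mul_mem (L.inv_mem x.2) y.2) x.2⟩ : L) =
      x⁻¹ * y * x := Subtype.ext (by simp)
    rw [h2, this]
    exact D.one_mem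
  have hmaps : ∀ x : L, ∀ K ∈ C, cj (x : G) K ∈ C := by
    intro x K hK
    refine map_mem_closure (continuous_cj (x : G)) hK ?_
    rintro _ ⟨y, rfl⟩
    exact ⟨x * y, by simp [cj_mul]⟩
  have hpreC : ∀ x : L, (cj (x : G)) ⁻¹' C = C := by
    intro x
    ext K
    constructor
    · intro hK
      have := hmaps x⁻¹ _ hK
      rw [← cj_mul] at this
      simpa [cj_one] using this
    · exact hmaps x K
  have hsub : orbitClosure Δ ⊆ ⋃ q : G ⧸ L, (cj (q.out)⁻¹) ⁻¹' C := by
    refine closure_minimal ?_ (isClosed_iUnion_of_finite fun q => hCc.preimage (continuous_cj _))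
    rintro _ ⟨g, rfl⟩
    refine Set.mem_iUnion.mpr ⟨(g : G ⧸ L), ?_⟩
    obtain ⟨x, hx⟩ := QuotientGroup.mk_out_eq_mul L g
    have h1 : ((g : G ⧸ L).out)⁻¹ * g = ((x⁻¹ : L) : G) := by
      rw [hx]; simp
    have h2 : cj (((g : G ⧸ L).out)⁻¹) (cj g Δ) = cj ((x⁻¹ : L) : G) Δ := by
      rw [← cj_mul, h1]
    change cj (((g : G ⧸ L).out)⁻¹) (cj g Δ) ∈ C
    rw [h2]
    exact subset_closure ⟨x⁻¹, rfl⟩
  have hC0 : μ C ≠ 0 := by
    intro h0
    have h1 : μ (⋃ q : G ⧸ L, (cj (q.out)⁻¹) ⁻¹' C) = 0 := by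
      rw [measure_iUnion_null_iff]
      intro q
      rw [← Measure.map_apply (continuous_cj _).measurable hCm, hinv, h0]
    have h2 := measure_mono_null hsub h1
    rw [hμ] at h2
    exact one_ne_zero h2
  have hCtop : μ C ≠ ⊤ := measure_ne_top μ C
  have hcont : ContinuousOn (proj L π) C := (continuousOn_proj hπ).mono hCF
  have hae : AEMeasurable (proj L π) (μ.restrict C) := hcont.aemeasurable hCm
  apply hD
  refine ⟨(μ C)⁻¹ • (μ.restrict C).map (proj L π), ⟨⟨?_⟩, ?_⟩, ?_⟩
  · rw [Measure.smul_apply, Measure.map_apply_of_aemeasurable hae MeasurableSet.univ]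
    simp [ENNReal.inv_mul_cancel hC0 hCtop]
  · intro h
    obtain ⟨x, rfl⟩ := hπ h
    rw [Measure.map_smul]
    congr 1
    have hm : Measurable (cj (π x) : Subgroup H → Subgroup H) := (continuous_cj _).measurable
    rw [AEMeasurable.map_map_of_aemeasurable hm.aemeasurable hae]
    have hr : (μ.restrict C).map (cj (x : G)) = μ.restrict C := by
      have h1 := Measure.restrict_map (μ := μ) (continuous_cj (x : G)).measurable hCm
      rw [hinv, hpreC] at h1
      exact h1.symm
    have hcomp : (cj (π x)) ∘ (proj L π) = (proj L π) ∘ (cj (x : G)) := by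
      funext K
      exact (proj_cj x K).symm
    rw [hcomp]
    have hae' : AEMeasurable (proj L π) ((μ.restrict C).map (cj (x : G))) := by
      rw [hr]; exact hae
    rw [← AEMeasurable.map_map_of_aemeasurable hae' (continuous_cj (x : G)).measurable.aemeasurable,
      hr]
  · have hOC : MeasurableSet (orbitClosure D) := isClosed_closure.measurableSet
    rw [Measure.smul_apply, Measure.map_apply_of_aemeasurable hae hOC]
    have hsub2 : C ⊆ (proj L π) ⁻¹' (orbitClosure D) := by
      intro K hK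
      have h1 := hcont.image_closure (Set.mem_image_of_mem _ hK)
      refine closure_mono ?_ h1
      rintro _ ⟨_, ⟨x, rfl⟩, rfl⟩
      refine ⟨π x, ?_⟩
      change cj (π x) D = proj L π (cj (x : G) Δ)
      rw [proj_cj, hΔ, proj_lift hπ]
    have h3 : (μ.restrict C) ((proj L π) ⁻¹' (orbitClosure D)) = μ C := by
      apply le_antisymm
      · calc _ ≤ (μ.restrict C) Set.univ := measure_mono (Set.subset_univ _)
          _ = μ C := by simp
      · calc μ C = (μ.restrict C) C := by simp
          _ ≤ _ := measure_mono hsub2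
    rw [h3, smul_eq_mul, ENNReal.inv_mul_cancel hC0 hCtop]

end Pool.Agent.Y518.BM
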