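import Pool.Agent.Y518.BM.Dense

/-!
There are uncountably many infinite boomerang subgroups without invariant random subgroups on
their orbit closures in every open set that contains a subgroup of infinite index.
-/

set_option autoImplicit false

universe u v

namespace Pool.Agent.Y518.BM

open Filter MeasureTheory Topology Pool.Agent.H338R3
open Pool.Agent.Results.MP_d9b86d_al.BoomerangNoIRS

/-- Good labellings are not isolated. -/
lemma exists_glue_ne (y : F2 → Sg) (R : ℕ) : ∃ h : F2, 2 * R < h.norm ∧ glue y R h ≠ y := by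
  by_contra hcon
  push Not at hcon
  -- powers of the two letters
  have hn : ∀ (b : Bool) (n : ℕ), (FreeGroup.of b ^ n : F2).norm = n := fun b n =>
    FreeGroup.norm_of_pow b n
  have hw : ∀ (b : Bool) (n : ℕ), down (FreeGroup.of b ^ (n + 1) : F2) = (b, false) := by
    intro b n
    have h1 : (FreeGroup.of b ^ (n + 1) : F2).toWord = (b, true) :: List.replicate n (b, true) := by
      rw [FreeGroup.toWord_of_pow]; rfl
    rw [down, h1]
    rfl
  have key : ∀ b : Bool, y 1 = (b, false) := by
    intro b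
    have e1 := congrFun (hcon (FreeGroup.of b ^ (2 * R + 1)) (by rw [hn]; omega))
      (FreeGroup.of b ^ (2 * R + 1))
    have e2 := congrFun (hcon (FreeGroup.of b ^ (4 * R + 3)) (by rw [hn]; omega))
      (FreeGroup.of b ^ (2 * R + 1))
    have h3 : ¬ (FreeGroup.of b ^ (2 * R + 1) : F2).norm ≤ R := by rw [hn]; omega
    have h4 : (FreeGroup.of b ^ (2 * R + 1) * (FreeGroup.of b ^ (4 * R + 3))⁻¹ : F2) =
        (FreeGroup.of b ^ (2 * R + 2))⁻¹ := by
      have : (FreeGroup.of b ^ (4 * R + 3) : F2) =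
          FreeGroup.of b ^ (2 * R + 2) * FreeGroup.of b ^ (2 * R + 1) := by
        rw [← pow_add]; congr 1; omega
      rw [this, mul_inv_rev, mul_inv_cancel_left]
    have h5 : ¬ (FreeGroup.of b ^ (2 * R + 1) * (FreeGroup.of b ^ (4 * R + 3))⁻¹ : F2).norm ≤ R := by
      rw [h4, FreeGroup.norm_inv_eq, hn]; omega
    rw [glue, if_neg h3, if_pos (by rw [mul_inv_cancel]; simp [FreeGroup.norm_one]),
      mul_inv_cancel] at e1
    rw [glue, if_neg h3, if_neg h5, hw] at e2
    rw [e1, ← e2]
  have h1 := key true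
  have h2 := key false
  rw [h1] at h2
  exact absurd (congrArg Prod.fst h2) (by simp)

/-- The recurrent good labellings are not contained in a countable set. -/
theorem exists_recurrent_notMem (S : Set (F2 → Sg)) (hS : S.Countable) :
    ∃ y : F2 → Sg, y ∉ S ∧ Good y ∧ ∀ (γ : F2) (R N : ℕ), Rec y γ R N := by
  haveI : Countable S := hS.to_subtype
  let U : (F2 × ℕ × ℕ) ⊕ S → Set Y := fun p => match p with
    | Sum.inl p => {y | Rec y.1 p.1 p.2.1 p.2.2}
    | Sum.inr s => {y | y.1 ≠ s.1}
  have hopen : ∀ p, IsOpen (U p) := by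
    rintro (⟨γ, R, N⟩ | s)
    · have : U (Sum.inl (γ, R, N)) = ⋃ n ∈ Set.Ici N, ⋂ g ∈ {g : F2 | g.norm ≤ R},
          {y : Y | y.1 (g * γ ^ n) = y.1 g} := by
        ext y
        simp [U, Rec]
      rw [this]
      refine isOpen_biUnion fun n _ => (finite_ball R).isOpen_biInter fun g _ => ?_
      exact IsOpen.preimage (f := fun y : Y => (y.1 (g * γ ^ n), y.1 g))
        (((continuous_apply (g * γ ^ n)).comp continuous_subtype_val).prodMk
          ((continuous_apply g).comp continuous_subtype_val))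
        (isOpen_discrete ({p : Sg × Sg | p.1 = p.2}))
    · exact isOpen_ne.preimage continuous_subtype_val
  have hdense : ∀ p, Dense (U p) := by
    intro p y
    rw [mem_closure_iff]
    intro V hV hyV
    obtain ⟨V', hV', rfl⟩ := isOpen_induced_iff.mp hV
    obtain ⟨I, u, hu, hsub⟩ := isOpen_pi_iff.mp hV' y.1 hyV
    obtain ⟨M, hM⟩ : ∃ M : ℕ, ∀ i ∈ I, i.norm ≤ M := ⟨I.sup FreeGroup.norm, fun i hi =>
      Finset.le_sup (f := FreeGroup.norm) hi⟩
    obtain (⟨γ, R, N⟩ | s) := p
    · by_cases hγ : γ = 1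
      · exact ⟨y, hyV, N, le_rfl, fun g _ => by rw [hγ]; simp⟩
      set R' := max R M
      obtain ⟨n, hn, hlt⟩ := unbounded γ hγ (2 * R') N
      refine ⟨⟨glue y.1 R' (γ ^ n), good_glue y.1 y.2 R' _ hlt⟩, ?_, n, hn, ?_⟩
      · apply hsub
        intro i hi
        have h1 : i.norm ≤ R' := (hM i hi).trans (le_max_right _ _)
        change glue y.1 R' (γ ^ n) i ∈ u i
        rw [glue, if_pos h1]
        exact (hu i hi).2
      · intro g hg
        have h1 : g.norm ≤ R' := (show g.norm ≤ R from hg).trans (le_max_left _ _)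
        change glue y.1 R' (γ ^ n) (g * γ ^ n) = glue y.1 R' (γ ^ n) g
        have h2 : ¬ (g * γ ^ n).norm ≤ R' := by
          intro h3
          have := far R' (γ ^ n) _ hlt h3
          rw [mul_inv_cancel_right] at this
          omega
        rw [glue, if_neg h2, mul_inv_cancel_right, if_pos h1, glue, if_pos h1]
    · by_cases hys : y.1 = s.1
      · obtain ⟨h, hh, hne⟩ := exists_glue_ne y.1 M
        refine ⟨⟨glue y.1 M h, good_glue y.1 y.2 M _ hh⟩, ?_, ?_⟩
        · apply hsub
          intro i hi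
          change glue y.1 M h i ∈ u i
          rw [glue, if_pos (hM i hi)]
          exact (hu i hi).2
        · change glue y.1 M h ≠ s.1
          rw [← hys]
          exact hne
      · exact ⟨y, hyV, hys⟩
  obtain ⟨y, hy⟩ := (dense_iInter_of_isOpen hopen hdense).nonempty
  rw [Set.mem_iInter] at hy
  refine ⟨y.1, fun hyS => ?_, y.2, fun γ R N => hy (Sum.inl (γ, R, N))⟩
  exact hy (Sum.inr ⟨y.1, hyS⟩) rfl

lemma exists_move {α : Type u} (a0 a1 : α) (h : a0 ≠ a1) (g : F2) :
    ∃ w : FreeGroup α, (ac a0 a1 w (bp false)).2 = (g, false) := by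
  have key : ∀ l : List Sg, ∃ w : FreeGroup α,
      (ac a0 a1 w (bp false)).2 = ((FreeGroup.mk l : F2), false) := by
    intro l
    induction l with
    | nil => exact ⟨1, by simp [bp, ← FreeGroup.one_eq_mk]⟩
    | cons s l ih =>
      obtain ⟨w, hw⟩ := ih
      refine ⟨mv a0 a1 s * w, ?_⟩
      rw [map_mul, Equiv.Perm.mul_apply]
      set Q := ac a0 a1 w (bp false) with hQ
      have h2 : Q = tr Q.1 Q.2.1 (bp false) := by
        refine Prod.ext ?_ (Prod.ext ?_ ?_)
        · funext k; simp [tr, bp]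
        · simp [tr, bp]
        · rw [hw]; simp [tr, bp]
      rw [h2, (ac_nice a0 a1 (mv a0 a1 s)).1, ac_mv a0 a1 h]
      change (el s * Q.2.1, false) = _
      rw [hw]
      change (el s * FreeGroup.mk l, false) = _
      rw [el, FreeGroup.mul_mk]
      rfl
  obtain ⟨w, hw⟩ := key g.toWord
  rw [FreeGroup.mk_toWord] at hw
  exact ⟨w, hw⟩

lemma SS_injective {α : Type u} (a0 a1 : α) (h : a0 ≠ a1) {y y' : F2 → Sg}
    (hyy : SS a0 a1 y false = SS a0 a1 y' false) : y = y' := by
  funext g
  obtain ⟨w, hw⟩ := exists_move a0 a1 h g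
  have h1 : ∀ z : F2 → Sg, ∀ s, cj w (SS a0 a1 z false) ∈ AA a0 a1 s ↔ z g = s := by
    intro z s
    rw [cj_SS, hw, SS_false_mem_AA a0 a1 h]
    simp
  have h2 := (h1 y' (y g)).mp (hyy ▸ (h1 y (y g)).mpr rfl)
  exact h2.symm

/-- The set of the infinite boomerang subgroups without invariant random subgroups on their orbit
closures is uncountable, in the free group of rank two. -/
theorem not_countable_NB : ¬ (NB (FreeGroup Bool)).Countable := by
  intro hc
  have hne : (true : Bool) ≠ false := by simp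
  let S : Set (F2 → Sg) := {y | Good y ∧ ∀ (γ : F2) (R N : ℕ), Rec y γ R N}
  have hS : S.Countable := by
    refine Set.MapsTo.countable_of_injOn (f := fun y => SS true false y false)
      (t := NB (FreeGroup Bool)) ?_ ?_ hc
    · intro y hy
      exact ⟨infinite_SS true false hne y, boomerang_SS true false y hy.2,
        no_irs_SS true false hne y hy.1⟩
    · intro y _ y' _ h
      exact SS_injective true false hne h
  obtain ⟨y, hy, h1, h2⟩ := exists_recurrent_notMem S hS
  exact hy ⟨h1, h2⟩

lemma exists_finset_nhd {G : Type u} [Group G] {U : Set (Subgroup G)} (hU : IsOpen U)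
    {K : Subgroup G} (hK : K ∈ U) :
    ∃ B : Finset G, ∀ Δ : Subgroup G, (∀ g ∈ B, (g ∈ Δ ↔ g ∈ K)) → Δ ∈ U := by
  by_contra hcon
  push Not at hcon
  have h1 : K ∈ closure Uᶜ := mem_closure_of_near fun B => by
    obtain ⟨Δ, h1, h2⟩ := hcon B
    exact ⟨Δ, h2, h1⟩
  rw [hU.isClosed_compl.closure_eq] at h1
  exact h1 hK

theorem not_countable_inter {α : Type u} [Nontrivial α] {U : Set (Subgroup (FreeGroup α))}
    (hU : IsOpen U) {K : Subgroup (FreeGroup α)} (hKU : K ∈ U) (hK : K.index = 0) :
    ¬ (U ∩ NB (FreeGroup α)).Countable := by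
  intro hc
  obtain ⟨B, hB⟩ := exists_finset_nhd hU hKU
  obtain ⟨L, hL, π, hπ, hLB⟩ := exists_cover K hK B
  apply not_countable_NB
  refine Set.MapsTo.countable_of_injOn (f := fun D => lift L π D)
    (t := U ∩ NB (FreeGroup α)) ?_ ?_ hc
  · intro D hD
    refine ⟨hB _ fun g hg => ?_, lift_mem_NB hπ hD⟩
    obtain ⟨h1, h2⟩ := hLB g hg
    rw [mem_lift]
    constructor
    · rintro ⟨h3, -⟩
      by_contra h4
      exact h2 h4 h3
    · intro h3
      obtain ⟨h4, h5⟩ := h1 h3
      exact ⟨h4, by rw [h5]; exact D.one_mem⟩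
  · intro D _ D' _ h
    have h1 := congrArg (proj L π) h
    simpa [proj_lift hπ] using h1

end Pool.Agent.Y518.BM
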